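import Pool.Agent.K4H56.RS.Ex

/-!
# Negative solutions of `Δ u + p(|x|) q(e^u) = 4 π N δ` which are not radially symmetric

The hypotheses (H1)-(H8) allow the function `g(u) = q(e^u)` which is equal to `e^u` for
`u ≤ -3π/4` and to `-√2 e^(-3π/4) sin u` for `u ≥ -3π/4`; here `p = 1`. A solution of the Liouville
equation `Δ u + e^u = 4 π N δ` with values `≤ -3π/4` is then a negative solution of the equation.
Such solutions are

  `u = log (8 |F'|² / (1 + |F|²)²)`, `F(z) = κ (z^(N+1) - 1)`, `κ > 0` small

for `N ≥ 1`, and `F(z) = exp (ε z)`, `ε > 0` small, for `N = 0`. They are not radially symmetric about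
any point; for `N ≥ 1` the nonlinear term is integrable.
-/

set_option autoImplicit false

namespace Pool.Agent.Results.MP_ad2fa1_an.NonradialSolutions

open MeasureTheory Pool.Agent.K4H56.RS

/-- There are functions `p`, `q` such that `f(t) = e^{2t} p(e^t)` and `g(u) = q(e^u)` satisfy
(H1)-(H8), and such that for every natural number `N` the equation
`Δ u + p(|x|) q(e^u) = 4 π N δ` has a negative solution on the plane which is not radially
symmetric about any point (in particular not about the origin); for `N ≥ 1` the solution has finite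
mass, that is, `p(|x|) q(e^u)` is integrable over the plane. -/
theorem result : ∃ p q : ℝ → ℝ,
    Hypotheses (fun t => Real.exp (2 * t) * p (Real.exp t)) (fun u => q (Real.exp u)) ∧
    ∀ N : ℕ, ∃ u : Plane → ℝ, IsNegativeSolution N p q u ∧ (∀ c : Plane, ¬ RadialAbout c u) ∧
      (1 ≤ N → Integrable (fun x : Plane => p ‖x‖ * q (Real.exp (u x)))) := by
  refine ⟨fun _ => 1, q, ?_, fun N => ?_⟩
  · have h1 : (fun t : ℝ => Real.exp (2 * t) * (fun _ : ℝ => (1 : ℝ)) (Real.exp t)) =
        fun t => Real.exp (2 * t) := by
      funext t; simp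
    have h2 : (fun u : ℝ => q (Real.exp u)) = g := funext q_exp
    rw [h1, h2]
    exact hypotheses
  · rcases Nat.eq_zero_or_pos N with h | h
    · subst h
      exact ⟨_, sol_zero, not_radial_zero, fun h => absurd h (by norm_num)⟩
    · exact ⟨_, sol_N N, not_radial_N N h, fun h' => integrable_N N h'⟩

end Pool.Agent.Results.MP_ad2fa1_an.NonradialSolutions
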